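import Mathlib
import Pool.Agent.V11242.OE.Main

/-!
# A space which is not perfectly normal all of whose subsets are `1`-embedded
-/

set_option autoImplicit false

namespace Pool.Agent.Results.MP_493890_gt.NonNormalOneEmbedded

open Pool.Agent.V11242.OE

/-- There is a Hausdorff completely regular space `X` which is not normal, so that it is not
perfectly normal, such that every subset of `X` is functionally `F_σ`; in particular every subset
of `X` is `1`-embedded in `X`. -/
theorem result : ∃ (X : Type) (_ : TopologicalSpace X), T2Space X ∧ ComplReg X ∧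
    ¬ NormalSpace X ∧ ¬ (NormalSpace X ∧ ∀ F : Set X, IsClosed F → IsGδ F) ∧
    (∀ A : Set X, FSigma A) ∧ ∀ E : Set X, OneEmbedded E := by
  obtain ⟨X, hX, h1, h2, h3, h4, h5⟩ := main
  exact ⟨X, hX, h1, h2, h3, fun h => h3 h.1, h4, h5⟩

end Pool.Agent.Results.MP_493890_gt.NonNormalOneEmbedded
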